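import Mathlib

namespace Pool.Agent.Results.MP_ed2ca9_lc.LogLower
open Finset

variable {N : Type} [MetricSpace N] {m : ℕ}

/-- Request sequences are written latest first, and `A` gives the site of the latest request as a
function of the requests so far. `load A ρ i` is the number of requests of `ρ` sent to site `i`. -/
def load (A : List N → Fin m) : List N → Fin m → ℕ
  | [], _ => 0
  | r :: ρ, i => load A ρ i + if A (r :: ρ) = i then 1 else 0

/-- Total distance between the requests of `ρ` and the sites serving them. -/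
noncomputable def cost (s : Fin m → N) (A : List N → Fin m) : List N → ℝ
  | [] => 0
  | r :: ρ => cost s A ρ + dist (s (A (r :: ρ))) r

/-- The online algorithm `A` respects the capacities `c` and has weak competitive ratio at most `R`
against offline assignments `B` (chosen after the whole sequence) respecting the capacities `a`. -/
def Weak (s : Fin m → N) (a c : Fin m → ℕ) (A : List N → Fin m) (R : ℝ) : Prop :=
  ∀ ρ : List N, ρ.length ≤ ∑ i, a i → (∀ i, load A ρ i ≤ c i) ∧
    ∀ B : List N → Fin m, (∀ i, load B ρ i ≤ a i) → cost s A ρ ≤ R * cost s B ρ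

omit [MetricSpace N] in
lemma sum_load (A : List N → Fin m) (ρ : List N) : ∑ i, load A ρ i = ρ.length := by
  induction ρ with
  | nil => simp [load]
  | cons r ρ ih => simp [load, sum_add_distrib, ih]

/-- The sites: the unit vectors of `ℝ^m` with the maximum norm. -/
noncomputable def site (m : ℕ) (i : Fin m) : Fin m → ℝ := Pi.single i 1

lemma d0 (i : Fin m) : dist (site m i) 0 = 1 := by
  simp [site, Pi.norm_single]

lemma d1 {i j : Fin m} (h : i ≠ j) : 1 ≤ dist (site m i) (site m j) := by
  have := dist_le_pi_dist (site m i) (site m j) i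
  simpa [site, Pi.single_apply, h] using this

lemma rep (A : List (Fin m → ℝ) → Fin m) (ρ : List (Fin m → ℝ)) (i : Fin m) (n : ℕ) :
    cost (site m) A ρ + load A ρ i + n ≤ cost (site m) A (List.replicate n (site m i) ++ ρ) +
      load A (List.replicate n (site m i) ++ ρ) i := by
  induction n with
  | zero => simp
  | succ n ih =>
    simp only [List.replicate_succ, List.cons_append, cost, load]
    split_ifs with h
    · push_cast
      linarith [dist_nonneg (x := site m (A (site m i :: (List.replicate n (site m i) ++ ρ))))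
        (y := site m i)]
    · push_cast
      linarith [d1 h]

lemma repB (B : List (Fin m → ℝ) → Fin m) (hB : ∀ i τ, B (site m i :: τ) = i)
    (ρ : List (Fin m → ℝ)) (i : Fin m) (n : ℕ) :
    cost (site m) B (List.replicate n (site m i) ++ ρ) = cost (site m) B ρ ∧
    ∀ j, load B (List.replicate n (site m i) ++ ρ) j = load B ρ j + if i = j then n else 0 := by
  induction n with
  | zero => simp
  | succ n ih =>
    simp only [List.replicate_succ, List.cons_append, cost, load, hB, ih.1, ih.2]
    refine ⟨by simp, fun j => ?_⟩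
    split_ifs <;> omega

lemma cost0 (A : List (Fin m → ℝ) → Fin m) (n : ℕ) :
    cost (site m) A (List.replicate n 0) = n := by
  induction n with
  | zero => simp [cost]
  | succ n ih => simp only [List.replicate_succ, cost, ih, d0]; push_cast; rfl

lemma load0 (B : List (Fin m → ℝ) → Fin m) (n : ℕ) (i : Fin m) :
    load B (List.replicate n 0) i = #{p ∈ range n | B (List.replicate (p + 1) 0) = i} := by
  induction n with
  | zero => simp [load]
  | succ n ih =>
    rw [range_add_one, filter_insert]
    simp only [List.replicate_succ, load] at ih ⊢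
    split_ifs
    · rw [card_insert_of_notMem (by simp), ih]
    · simpa using ih

lemma main {a e k : ℕ} (hk : 1 ≤ k) (hka : 3 * e * m ≤ k * a) (A : List (Fin m → ℝ) → Fin m)
    (hA : ∀ ρ : List (Fin m → ℝ), ρ.length ≤ m * a → ∀ i, load A ρ i ≤ a + e) (j : ℕ)
    (hj : j + k ≤ m) :
    ∃ (ρ : List (Fin m → ℝ)) (P : Finset (Fin m)), #P = j ∧ ρ.length = 3 * e * m + j * a ∧
      (∀ B : List (Fin m → ℝ) → Fin m, (∀ i τ, B (site m i :: τ) = i) →
        cost (site m) B ρ = (3 * e * m : ℕ) ∧
        ∀ i, load B ρ i = load B (List.replicate (3 * e * m) 0) i + if i ∈ P then a else 0) ∧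
      3 * e * m - e * j + 2 * e * m * (Real.log (m + 1) - Real.log (m - j + 1)) ≤
        cost (site m) A ρ := by
  induction j with
  | zero =>
    refine ⟨List.replicate (3 * e * m) 0, ∅, rfl, by simp, fun B _ => ⟨cost0 _ _, by simp⟩, ?_⟩
    rw [cost0]; simp
  | succ j ih =>
    obtain ⟨ρ, P, h1, h2, h3, h4⟩ := ih (by omega)
    have hlen : 3 * e * m + (j + 1) * a ≤ m * a := by nlinarith
    have hPc : #Pᶜ = m - j := by rw [card_compl, h1, Fintype.card_fin]
    have hx : (0 : ℝ) < m - j := by
      have : ((j + 1 : ℕ) : ℝ) ≤ m := by exact_mod_cast (by omega : j + 1 ≤ m)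
      push_cast at this; linarith
    obtain ⟨i, hi, hload⟩ : ∃ i ∈ Pᶜ, 2 * e * m / (m - j : ℝ) ≤ load A ρ i := by
      by_contra hc
      push Not at hc
      have s1 := sum_lt_sum_of_nonempty (s := Pᶜ) (card_pos.1 (by omega)) hc
      rw [sum_const, hPc, nsmul_eq_mul, Nat.cast_sub (by omega), mul_div_cancel₀ _ hx.ne'] at s1
      have s2 : ∑ i ∈ P, load A ρ i ≤ j * (a + e) := by
        simpa [h1] using sum_le_card_nsmul P _ _ (fun i _ => hA ρ (by nlinarith) i)
      have s3 := sum_add_sum_compl P (load A ρ)
      rw [sum_load, h2] at s3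
      have s4 : ∑ i ∈ Pᶜ, load A ρ i < 2 * e * m := by exact_mod_cast s1
      have s5 : j * e ≤ m * e := Nat.mul_le_mul_right _ (by omega)
      nlinarith
    have hi' : i ∉ P := mem_compl.1 hi
    refine ⟨List.replicate a (site m i) ++ ρ, insert i P, by rw [card_insert_of_notMem hi', h1],
      by simp [h2]; ring, fun B hB => ?_, ?_⟩
    · obtain ⟨b1, b2⟩ := repB B hB ρ i a
      refine ⟨b1.trans (h3 B hB).1, fun l => ?_⟩
      rw [b2, (h3 B hB).2]
      by_cases hl : i = l
      · subst hl; simp [hi']
      · simp [hl, Ne.symm hl]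
    · have r1 := rep A ρ i a
      have r2 : (load A (List.replicate a (site m i) ++ ρ) i : ℝ) ≤ a + e := by
        exact_mod_cast hA _ (by simp [h2]; nlinarith) i
      have r3 : Real.log (m - j + 1) - Real.log (m - j) ≤ 1 / (m - j) := by
        rw [← Real.log_div (by linarith) hx.ne']
        refine (Real.log_le_sub_one_of_pos (by positivity)).trans (le_of_eq ?_)
        field_simp; ring
      have r4 := mul_le_mul_of_nonneg_left r3 (by positivity : (0 : ℝ) ≤ 2 * e * m)
      rw [mul_one_div] at r4
      push_cast
      rw [show (m : ℝ) - (j + 1) + 1 = m - j by ring]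
      linarith

theorem result (m a e k : ℕ) (he : 1 ≤ e) (hk : 1 ≤ k) (hkm : k ≤ m) (hka : 3 * e * m ≤ k * a)
    (A : List (Fin m → ℝ) → Fin m) (R : ℝ)
    (h : Weak (site m) (fun _ => a) (fun _ => a + e) A R) :
    2 / 3 * (1 + Real.log ((m + 1) / (k + 1))) ≤ R := by
  classical
  have hs : ∑ _i : Fin m, a = m * a := by simp
  obtain ⟨ρ, P, h1, h2, h3, h4⟩ := main hk hka A
    (fun ρ hρ => (h ρ (by rw [hs]; exact hρ)).1) (m - k) (by omega)
  have hPc : #Pᶜ = k := by rw [card_compl, h1, Fintype.card_fin]; omega
  have ha : 0 < a := by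
    rcases Nat.eq_zero_or_pos a with h0 | h0
    · subst h0; nlinarith
    · exact h0
  let f : ℕ → Fin m := fun p =>
    Pᶜ.orderEmbOfFin hPc ⟨min (p / a) (k - 1), by omega⟩
  let B : List (Fin m → ℝ) → Fin m := fun τ =>
    if h : ∃ i, τ.head? = some (site m i) then h.choose else f (τ.length - 1)
  have hB : ∀ i τ, B (site m i :: τ) = i := by
    intro i τ
    have h' : ∃ l, (site m i :: τ).head? = some (site m l) := ⟨i, rfl⟩
    simp only [B, dif_pos h']
    by_contra hne
    have e1 : site m i = site m h'.choose := Option.some.inj h'.choose_spec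
    have := d1 hne
    rw [← e1] at this
    norm_num at this
  have hB0 : ∀ p, B (List.replicate (p + 1) 0) = f p := by
    intro p
    have h' : ¬ ∃ l, (List.replicate (p + 1) (0 : Fin m → ℝ)).head? = some (site m l) := by
      rintro ⟨l, hl⟩
      simp only [List.replicate_succ, List.head?_cons, Option.some.injEq] at hl
      have := d0 l
      rw [← hl] at this
      norm_num at this
    simp only [B, dif_neg h', List.length_replicate, Nat.add_sub_cancel]
  have hl : ∀ i, load B ρ i ≤ a := by
    intro i
    rw [(h3 B hB).2, load0]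
    simp only [hB0]
    split_ifs with hi
    · rw [card_eq_zero.2, zero_add]
      refine filter_eq_empty_iff.2 fun p _ hp => ?_
      exact mem_compl.1 (hp ▸ orderEmbOfFin_mem Pᶜ hPc _) hi
    · rw [add_zero]
      refine le_trans (card_le_card_of_injOn (fun p => p % a) (t := range a)
        (fun p _ => by simpa using Nat.mod_lt p ha) ?_) (by simp)
      intro p hp q hq hpq
      simp only [coe_filter, mem_range, Set.mem_setOf_eq] at hp hq
      have e1 := (Pᶜ.orderEmbOfFin hPc).injective (hp.2.trans hq.2.symm)
      simp only [Fin.mk.injEq] at e1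
      have p1 : p / a < k := Nat.div_lt_of_lt_mul (by nlinarith)
      have q1 : q / a < k := Nat.div_lt_of_lt_mul (by nlinarith)
      have e2 : p / a = q / a := by omega
      beta_reduce at hpq
      rw [← Nat.div_add_mod p a, ← Nat.div_add_mod q a, e2, hpq]
  have key := (h ρ (by rw [hs, h2]; zify [hkm] at hka ⊢; nlinarith)).2 B hl
  rw [(h3 B hB).1] at key
  rw [Nat.cast_sub hkm, show (m : ℝ) - (m - k) + 1 = k + 1 by ring] at h4
  rw [Real.log_div (by positivity) (by positivity)]
  push_cast at key
  have he' : (1 : ℝ) ≤ e := by exact_mod_cast he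
  have hk' : (1 : ℝ) ≤ k := by exact_mod_cast hk
  have hm' : (k : ℝ) ≤ m := by exact_mod_cast hkm
  have hem : (0 : ℝ) < e * m := by nlinarith
  by_contra hc
  push Not at hc
  nlinarith [mul_lt_mul_of_pos_left hc hem, mul_nonneg (by linarith : (0 : ℝ) ≤ e) (by linarith : (0 : ℝ) ≤ k)]

end Pool.Agent.Results.MP_ed2ca9_lc.LogLower
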